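import Pool.Agent.H7.GU.Stmts

set_option autoImplicit false

namespace Pool.GU7

open Pool.Agent.H23.KT Pool.Agent.H46.KW Pool.KQ Pool.GT7

theorem NUB8_geo {A y : ℝ} (h0 : 0 ≤ A) (h1 : A / 2 ≤ y) (h2 : y ≤ A) :
    ∀ j : ℕ, (A - y) * j * (A / 2) ^ j ≤ y * (A ^ j - y ^ j) := by
  intro j
  induction j with
  | zero => simp
  | succ j ih =>
    have hA2 : 0 ≤ A / 2 := by linarith
    have hy : 0 ≤ y := by linarith
    have hd : 0 ≤ A - y := by linarith
    have e : y * (A ^ (j + 1) - y ^ (j + 1)) = y * A ^ j * (A - y) + y * (y * (A ^ j - y ^ j)) := by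
      ring
    have p1 : (A / 2) ^ j ≤ A ^ j := pow_le_pow_left₀ hA2 (by linarith) j
    have p2 : (A / 2) * (A / 2) ^ j ≤ y * A ^ j :=
      mul_le_mul h1 p1 (pow_nonneg hA2 j) hy
    have p3 : (A / 2) * (A / 2) ^ j * (A - y) ≤ y * A ^ j * (A - y) :=
      mul_le_mul_of_nonneg_right p2 hd
    have p4 : 0 ≤ (A - y) * j * (A / 2) ^ j := by positivity
    have p5 : (A / 2) * ((A - y) * j * (A / 2) ^ j) ≤ y * (y * (A ^ j - y ^ j)) :=
      mul_le_mul h1 ih p4 hy
    rw [e]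
    push_cast
    have e2 : (A - y) * ((j : ℝ) + 1) * (A / 2) ^ (j + 1)
        = (A / 2) * (A / 2) ^ j * (A - y) + (A / 2) * ((A - y) * j * (A / 2) ^ j) := by ring
    rw [e2]
    linarith

theorem NUB8_bern {a s : ℝ} (ha : 0 ≤ a) (hs : 0 ≤ s) :
    ∀ j : ℕ, (a + s) ^ j ≤ a ^ j + j * s * (a + s) ^ (j - 1) := by
  intro j
  induction j with
  | zero => simp
  | succ j ih =>
    rcases Nat.eq_zero_or_pos j with h | h
    · subst h; simp
    · obtain ⟨k, rfl⟩ : ∃ k, j = k + 1 := ⟨j - 1, by omega⟩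
      simp only [Nat.add_sub_cancel] at ih ⊢
      have h1 : (a + s) * (a + s) ^ (k + 1) ≤ (a + s) * (a ^ (k + 1) + ((k + 1 : ℕ) : ℝ) * s * (a + s) ^ k) :=
        mul_le_mul_of_nonneg_left ih (by positivity)
      have h2 : s * a ^ (k + 1) ≤ s * (a + s) ^ (k + 1) :=
        mul_le_mul_of_nonneg_left (pow_le_pow_left₀ ha (by linarith) _) hs
      have e1 : (a + s) ^ (k + 1 + 1) = (a + s) * (a + s) ^ (k + 1) := by ring
      rw [e1]
      refine h1.trans ?_
      push_cast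
      have e2 : (a + s) * (a ^ (k + 1) + ((k : ℝ) + 1) * s * (a + s) ^ k)
          = a ^ (k + 1 + 1) + s * a ^ (k + 1) + ((k : ℝ) + 1) * s * (a + s) ^ (k + 1) := by ring
      rw [e2]
      linarith

theorem NUB_thm : NUBStmt := by
  intro p w r
  refine ⟨((w : ℝ) + 1) * r * (1 + r) ^ (w + 1) + 1, by positivity,
    2 * r * (p + 1) * (p + 2) + 1, ?_⟩
  intro a ha n hn
  have ha1 : 1 ≤ a := by
    have : 0 ≤ 2 * r * (p + 1) * (p + 2) := Nat.zero_le _
    omega
  have haR : (1 : ℝ) ≤ a := by exact_mod_cast ha1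
  have haR' : 2 * (r : ℝ) * (p + 1) * (p + 2) + 1 ≤ a := by exact_mod_cast ha
  obtain ⟨b, hb⟩ : ∃ b : ℝ, b = (p : ℝ) + 3 := ⟨_, rfl⟩
  have hb0 : 0 < b := by rw [hb]; positivity
  have hb3 : 3 ≤ b := by rw [hb]; linarith [Nat.cast_nonneg (α := ℝ) p]
  have hD : ((((p + 3) * a + r : ℕ) : ℝ)) = b * a + r := by push_cast; rw [hb]
  have hnR : (n : ℝ) ≤ b * a + r := by rw [← hD]; exact_mod_cast hn
  rw [hD, ← hb]
  obtain ⟨s, hs⟩ : ∃ s : ℝ, s = r / b := ⟨_, rfl⟩
  have hr0 : (0 : ℝ) ≤ r := Nat.cast_nonneg r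
  have hs0 : 0 ≤ s := by rw [hs]; positivity
  have hbs : b * s = r := by rw [hs]; field_simp
  obtain ⟨y, hy⟩ : ∃ y : ℝ, y = (b * a + r - n) / b := ⟨_, rfl⟩
  have hby : b * y = b * a + r - n := by rw [hy]; field_simp
  rw [← hy]
  have hy0 : 0 ≤ y := by rw [hy]; exact div_nonneg (by linarith) hb0.le
  constructor
  · intro h2n
    have h2nR : 2 * (n : ℝ) ≤ b * a + r := by rw [← hD]; exact_mod_cast h2n
    have hn0 : (0 : ℝ) ≤ n := Nat.cast_nonneg n
    have g1 : (a + s) / 2 ≤ y := by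
      have : b * ((a + s) / 2) ≤ b * y := by rw [hby]; nlinarith
      exact le_of_mul_le_mul_left this hb0
    have g2 : y ≤ a + s := by
      have : b * y ≤ b * (a + s) := by rw [hby]; nlinarith
      exact le_of_mul_le_mul_left this hb0
    have hgeo := NUB8_geo (A := a + s) (y := y) (by positivity) g1 g2 (w + 1)
    have hgeo2 := mul_le_mul_of_nonneg_left hgeo hb0.le
    have e1 : b * ((a + s - y) * ((w + 1 : ℕ) : ℝ) * ((a + s) / 2) ^ (w + 1))
        = n * ((w : ℝ) + 1) * ((a + s) / 2) ^ (w + 1) := by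
      have : b * (a + s - y) = n := by
        rw [mul_sub, hby, mul_add, hbs]; ring
      rw [← this]; push_cast; ring
    have e2 : b * (y * ((a + s) ^ (w + 1) - y ^ (w + 1)))
        = (b * a + r - n) * ((a + s) ^ (w + 1) - y ^ (w + 1)) := by rw [← hby]; ring
    rw [e1, e2] at hgeo2
    have q1 : (n : ℝ) * ((w : ℝ) + 1) * ((a : ℝ) / 2) ^ (w + 1)
        ≤ n * ((w : ℝ) + 1) * ((a + s) / 2) ^ (w + 1) := by
      apply mul_le_mul_of_nonneg_left _ (by positivity)
      exact pow_le_pow_left₀ (by positivity) (by linarith) _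
    have hbern := NUB8_bern (a := (a : ℝ)) (s := s) (by positivity) hs0 (w + 1)
    simp only [Nat.add_sub_cancel] at hbern
    push_cast at hbern
    have x0 : 0 ≤ b * a + r - n := by linarith
    have xle : b * a + r - n ≤ b * (a + s) := by rw [mul_add, hbs]; linarith
    have q2 : (b * a + r - n) * ((a + s) ^ (w + 1) - a ^ (w + 1))
        ≤ b * (a + s) * (((w : ℝ) + 1) * s * (a + s) ^ w) := by
      apply mul_le_mul xle (by linarith) _ (by positivity)
      have := pow_le_pow_left₀ (show (0 : ℝ) ≤ a by positivity) (show (a : ℝ) ≤ a + s by linarith) (w + 1)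
      linarith
    have q3 : b * (a + s) * (((w : ℝ) + 1) * s * (a + s) ^ w)
        = ((w : ℝ) + 1) * r * (a + s) ^ (w + 1) := by rw [← hbs]; ring
    have q4 : (a + s) ^ (w + 1) ≤ ((1 + (r : ℝ)) * a) ^ (w + 1) := by
      apply pow_le_pow_left₀ (by positivity)
      have : s ≤ r := by
        rw [hs]; exact div_le_self hr0 (by linarith)
      nlinarith
    rw [mul_pow] at q4
    have q5 : ((w : ℝ) + 1) * r * (a + s) ^ (w + 1)
        ≤ ((w : ℝ) + 1) * r * ((1 + (r : ℝ)) ^ (w + 1) * (a : ℝ) ^ (w + 1)) :=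
      mul_le_mul_of_nonneg_left q4 (by positivity)
    have q6 : 0 ≤ (a : ℝ) ^ (w + 1) := by positivity
    have e3 : (b * a + r - n) * ((a + s) ^ (w + 1) - y ^ (w + 1))
        = (b * a + r - n) * ((a : ℝ) ^ (w + 1) - y ^ (w + 1))
          + (b * a + r - n) * ((a + s) ^ (w + 1) - a ^ (w + 1)) := by ring
    rw [e3] at hgeo2
    rw [q3] at q2
    have e4 : (((w : ℝ) + 1) * r * (1 + r) ^ (w + 1) + 1) * (a : ℝ) ^ (w + 1)
        = ((w : ℝ) + 1) * r * ((1 + (r : ℝ)) ^ (w + 1) * (a : ℝ) ^ (w + 1)) + (a : ℝ) ^ (w + 1) := by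
      ring
    rw [e4]
    linarith
  · intro h2n
    have h2nR : b * a + r ≤ 2 * (n : ℝ) := by rw [← hD]; exact_mod_cast h2n
    obtain ⟨q, hq⟩ : ∃ q : ℝ, q = ((p : ℝ) + 1) * ((p : ℝ) + 2) := ⟨_, rfl⟩
    have hq2 : 2 ≤ q := by
      rw [hq]; nlinarith [Nat.cast_nonneg (α := ℝ) p]
    have hq0 : 0 < q := by linarith
    have e0 : 4 * ((p : ℝ) + 1) * ((p : ℝ) + 2) = 4 * q := by rw [hq]; ring
    rw [e0]
    have hg0 : 0 ≤ 1 / 2 - 1 / (4 * q) := by
      rw [sub_nonneg, div_le_div_iff₀ (by positivity) (by norm_num)]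
      linarith
    have hga : 0 ≤ (1 / 2 - 1 / (4 * q)) * (a : ℝ) := by positivity
    have hsum : (1 / 2 - 1 / (4 * q)) * (a : ℝ) + y ≤ a := by
      have k1 : y ≤ (a + s) / 2 := by
        have : b * y ≤ b * ((a + s) / 2) := by rw [hby]; nlinarith
        exact le_of_mul_le_mul_left this hb0
      have k2 : s / 2 ≤ 1 / (4 * q) * a := by
        rw [one_div, inv_mul_eq_div, le_div_iff₀ (by positivity)]
        have : s ≤ r := by
          rw [hs]; exact div_le_self hr0 (by linarith)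
        have h3 : 2 * (r : ℝ) * q + 1 ≤ a := by rw [hq]; linarith
        nlinarith
      linarith
    have h5 := pow_add_pow_le hga hy0 (show w + 1 ≠ 0 by omega)
    have h6 := pow_le_pow_left₀ (add_nonneg hga hy0) hsum (w + 1)
    linarith

end Pool.GU7
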